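import Pool.Agent.Helper20.FQ.Typ
import Pool.Agent.Helper35.NI.Defs

/-!
# Project FQ (MP_0f6f3f_an), layer LF: from the universal form to the sets of the layer NI

`LFR`, `LFL`: the universal form (right and left data) along a family `f i`, filter `fl`: no mass near the hyperplanes, uniformly. `Svl`: the elements of type `j` with left datum not near a hyperplane.
`lf_Sv`, `lf_Svl`: for a family of type `j` almost all the mass is on `A.Sv j C κ L e` (resp. `Svl`), uniformly in the unit vector `e`.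
-/

set_option autoImplicit false
set_option linter.unusedSectionVars false

open MeasureTheory Filter Topology Matrix

namespace Pool.Agent.Helper20.FQ

open Pool.Agent.Helper84.NI Pool.Agent.Helper84.GVN Pool.Agent.Helper90.RK
open Pool.Agent.Helper84.GN hiding toReg
open Pool.Agent.Helper96.RK Pool.Agent.Helper66.FR Pool.Agent.Helper84.FR Pool.Agent.Helper96.FR Pool.Agent.Helper55.FR
open Pool.Agent.Helper43.TA Pool.Agent.Helper43.FQ Pool.Agent.Helper9.FQ Pool.Agent.Helper35.NI Pool.Agent.Helper20.TB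

section LinAlg

variable {m : ℕ}

/-- The quadratic form of the Gram matrix. -/
theorem op_sq_gram (A : Matrix (Fin m) (Fin m) ℝ) (v : EuclideanSpace ℝ (Fin m)) :
    ‖op A v‖ ^ 2 = ∑ a, ∑ b, (Aᵀ * A) a b * (v a * v b) := by
  have h1 : ∀ i, (op A v) i = ∑ a, A i a * v a := by
    intro i
    unfold op
    rw [Matrix.ofLp_toEuclideanCLM, Matrix.mulVec, dotProduct]
  rw [EuclideanSpace.real_norm_sq_eq]
  have h2 : ∀ i, (op A v) i ^ 2 = ∑ a, ∑ b, A i a * A i b * (v a * v b) := by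
    intro i
    rw [h1, sq, Finset.sum_mul_sum]
    exact Finset.sum_congr rfl fun a _ => Finset.sum_congr rfl fun b _ => by ring
  simp only [h2]
  rw [Finset.sum_comm]
  refine Finset.sum_congr rfl fun a _ => ?_
  rw [Finset.sum_comm]
  refine Finset.sum_congr rfl fun b _ => ?_
  rw [Matrix.mul_apply, Finset.sum_mul]
  exact Finset.sum_congr rfl fun i _ => by rw [Matrix.transpose_apply]

theorem sum_abs_sq_le (v : EuclideanSpace ℝ (Fin m)) : (∑ a, |v a|) ^ 2 ≤ m * ‖v‖ ^ 2 := by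
  rw [EuclideanSpace.real_norm_sq_eq]
  have h := Finset.sum_mul_sq_le_sq_mul_sq (Finset.univ : Finset (Fin m)) (fun _ => (1 : ℝ)) fun a => |v a|
  simp only [one_mul, one_pow, Finset.sum_const, Finset.card_univ, Fintype.card_fin, nsmul_eq_mul, mul_one, sq_abs] at h
  exact h

/-- If the normalised Gram matrix is near `x xᵀ` then `‖A v‖² ≤ (⟪x, v⟫² + m c) hs A`. -/
theorem op_sq_near {A : Matrix (Fin m) (Fin m) ℝ} {x : EuclideanSpace ℝ (Fin m)} {c : ℝ} (hc : 0 ≤ c)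
    (h : ∀ a b, |gm A a b - x a * x b| ≤ c) {v : EuclideanSpace ℝ (Fin m)} (hv : ‖v‖ = 1) :
    ‖op A v‖ ^ 2 ≤ ((inner ℝ x v) ^ 2 + m * c) * hs A := by
  by_cases h0 : hs A = 0
  · have h1 := op_sq_le A v
    rw [h0] at h1 ⊢
    rw [mul_zero]
    linarith
  have hpos : 0 < hs A := lt_of_le_of_ne (hs_nonneg A) (Ne.symm h0)
  have h1 : ∀ a b, (Aᵀ * A) a b = hs A * gm A a b := by
    intro a b
    unfold gm
    rw [Matrix.smul_apply, smul_eq_mul, ← mul_assoc, mul_inv_cancel₀ h0, one_mul]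
  rw [op_sq_gram]
  have h2 : ∑ a, ∑ b, (Aᵀ * A) a b * (v a * v b) = hs A * ∑ a, ∑ b, gm A a b * (v a * v b) := by
    rw [Finset.mul_sum]
    refine Finset.sum_congr rfl fun a _ => ?_
    rw [Finset.mul_sum]
    exact Finset.sum_congr rfl fun b _ => by rw [h1]; ring
  rw [h2, mul_comm]
  refine mul_le_mul_of_nonneg_right ?_ hpos.le
  have h3 : (inner ℝ x v : ℝ) ^ 2 = ∑ a, ∑ b, x a * x b * (v a * v b) := by
    have e : (inner ℝ x v : ℝ) = ∑ a, x a * v a := by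
      rw [PiLp.inner_apply]
      exact Finset.sum_congr rfl fun a _ => by simp [mul_comm]
    rw [e, sq, Finset.sum_mul_sum]
    exact Finset.sum_congr rfl fun a _ => Finset.sum_congr rfl fun b _ => by ring
  have h4 : ∑ a, ∑ b, gm A a b * (v a * v b) - ∑ a, ∑ b, x a * x b * (v a * v b) ≤ c * (∑ a, |v a|) ^ 2 := by
    rw [← Finset.sum_sub_distrib, sq, Finset.sum_mul_sum, Finset.mul_sum]
    refine Finset.sum_le_sum fun a _ => ?_
    rw [← Finset.sum_sub_distrib, Finset.mul_sum]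
    refine Finset.sum_le_sum fun b _ => ?_
    have e : gm A a b * (v a * v b) - x a * x b * (v a * v b) = (gm A a b - x a * x b) * (v a * v b) := by ring
    rw [e]
    refine (le_abs_self _).trans ?_
    rw [abs_mul, abs_mul]
    exact mul_le_mul_of_nonneg_right (h a b) (by positivity)
  have h5 := sum_abs_sq_le v
  rw [hv, one_pow, mul_one] at h5
  have h6 := mul_le_mul_of_nonneg_left h5 hc
  rw [h3]
  linarith

theorem op_transpose_norm (A : Matrix (Fin m) (Fin m) ℝ) : ‖op Aᵀ‖ = ‖op A‖ := by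
  have h : op Aᵀ = star (op A) := by
    unfold op
    rw [← map_star, Matrix.star_eq_conjTranspose, conjTranspose_eq_transpose_of_trivial]
  rw [h, ContinuousLinearMap.star_eq_adjoint]
  exact ContinuousLinearMap.adjoint.norm_map _

theorem hs_transpose (A : Matrix (Fin m) (Fin m) ℝ) : hs Aᵀ = hs A := by
  unfold hs
  rw [Finset.sum_comm]
  rfl

end LinAlg

section Data

variable {G : Type} [Group G] {r : ℕ} (N : ND G (Fin r))

/-- The elements of type `j` with left datum not near a hyperplane. -/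
def Svl (j : Fin r) (C κ L : ℝ) (e : EuclideanSpace ℝ (Fin (N.n j))) : Set G :=
  {g | (∀ i, i ≠ j → N.gap g i ≤ C) ∧ L ≤ N.gap g j ∧ κ ≤ |inner ℝ (N.xL j g) e|}

/-- Near a hyperplane and with a large gap: the vector is contracted. -/
theorem small_right (j : Fin r) {δ : ℝ} (hδ : 0 < δ) : ∃ κ L : ℝ, 0 < κ ∧ ∀ (γ : G) (v : EuclideanSpace ℝ (Fin (N.n j))),
    ‖v‖ = 1 → L ≤ N.gap γ j → |inner ℝ (N.xR j γ) v| < κ → ‖op (N.r j γ) v‖ ≤ δ * ‖op (N.r j γ)‖ := by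
  have hn : (0 : ℝ) ≤ N.n j := Nat.cast_nonneg _
  obtain ⟨κ, hκ, hκ2⟩ : ∃ κ : ℝ, 0 < κ ∧ (N.n j : ℝ) * κ ^ 2 ≤ δ ^ 2 / 2 := by
    refine ⟨δ / (2 * (N.n j + 1)), by positivity, ?_⟩
    have h1 : (0 : ℝ) < N.n j + 1 := by positivity
    rw [div_pow, mul_div_assoc', div_le_div_iff₀ (by positivity) two_pos]
    nlinarith [sq_nonneg δ, sq_nonneg ((N.n j : ℝ)), mul_nonneg (sq_nonneg δ) hn, mul_nonneg (sq_nonneg δ) (sq_nonneg (N.n j : ℝ))]
  obtain ⟨L, hL⟩ : ∃ L : ℝ, (N.n j : ℝ) * (N.n j * (N.C0 * Real.exp (-L))) ≤ δ ^ 2 / 2 := by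
    have h1 : Tendsto (fun L : ℝ => (N.n j : ℝ) * (N.n j * (N.C0 * Real.exp (-L)))) atTop (𝓝 0) := by
      have h2 : Tendsto (fun L : ℝ => Real.exp (-L)) atTop (𝓝 0) := Real.tendsto_exp_neg_atTop_nhds_zero
      have h3 := ((h2.const_mul N.C0).const_mul (N.n j : ℝ)).const_mul (N.n j : ℝ)
      simpa using h3
    exact ((h1.eventually (gt_mem_nhds (show (0 : ℝ) < δ ^ 2 / 2 by positivity))).exists).imp fun L h => h.le
  refine ⟨κ, L, hκ, fun γ v hv hg hx => ?_⟩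
  have hC0 : 0 ≤ N.C0 := zero_le_one.trans N.one_le
  have h1 := op_sq_near (A := N.r j γ) (x := N.xR j γ) (c := N.C0 * Real.exp (-N.gap γ j)) (by positivity) (N.nearR j γ) hv
  have h2 : (inner ℝ (N.xR j γ) v) ^ 2 ≤ κ ^ 2 := by
    rw [← sq_abs]
    exact pow_le_pow_left₀ (abs_nonneg _) hx.le 2
  have h3 : Real.exp (-N.gap γ j) ≤ Real.exp (-L) := Real.exp_le_exp.2 (by linarith)
  have h4 : (N.n j : ℝ) * (N.C0 * Real.exp (-N.gap γ j)) ≤ N.n j * (N.C0 * Real.exp (-L)) := by gcongr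
  have h5 := hs_nonneg (N.r j γ)
  have h6 := hs_le_card (N.r j γ)
  rw [Fintype.card_fin] at h6
  have h7 : ‖op (N.r j γ) v‖ ^ 2 ≤ (κ ^ 2 + N.n j * (N.C0 * Real.exp (-L))) * (N.n j * ‖op (N.r j γ)‖ ^ 2) := by
    refine h1.trans (mul_le_mul (add_le_add h2 h4) h6 h5 (by positivity))
  have h8 : ‖op (N.r j γ) v‖ ^ 2 ≤ (δ * ‖op (N.r j γ)‖) ^ 2 := by
    refine h7.trans ?_
    have h9 : (κ ^ 2 + N.n j * (N.C0 * Real.exp (-L))) * (N.n j * ‖op (N.r j γ)‖ ^ 2) =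
        (N.n j * κ ^ 2 + N.n j * (N.n j * (N.C0 * Real.exp (-L)))) * ‖op (N.r j γ)‖ ^ 2 := by ring
    rw [h9, mul_pow]
    exact mul_le_mul_of_nonneg_right (by linarith) (sq_nonneg _)
  exact abs_le_of_sq_le_sq' h8 (by positivity) |>.2

theorem small_left (j : Fin r) {δ : ℝ} (hδ : 0 < δ) : ∃ κ L : ℝ, 0 < κ ∧ ∀ (γ : G) (v : EuclideanSpace ℝ (Fin (N.n j))),
    ‖v‖ = 1 → L ≤ N.gap γ j → |inner ℝ (N.xL j γ) v| < κ → ‖op (N.r j γ)ᵀ v‖ ≤ δ * ‖op (N.r j γ)‖ := by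
  have hn : (0 : ℝ) ≤ N.n j := Nat.cast_nonneg _
  obtain ⟨κ, hκ, hκ2⟩ : ∃ κ : ℝ, 0 < κ ∧ (N.n j : ℝ) * κ ^ 2 ≤ δ ^ 2 / 2 := by
    refine ⟨δ / (2 * (N.n j + 1)), by positivity, ?_⟩
    have h1 : (0 : ℝ) < N.n j + 1 := by positivity
    rw [div_pow, mul_div_assoc', div_le_div_iff₀ (by positivity) two_pos]
    nlinarith [sq_nonneg δ, sq_nonneg ((N.n j : ℝ)), mul_nonneg (sq_nonneg δ) hn, mul_nonneg (sq_nonneg δ) (sq_nonneg (N.n j : ℝ))]
  obtain ⟨L, hL⟩ : ∃ L : ℝ, (N.n j : ℝ) * (N.n j * (N.C0 * Real.exp (-L))) ≤ δ ^ 2 / 2 := by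
    have h1 : Tendsto (fun L : ℝ => (N.n j : ℝ) * (N.n j * (N.C0 * Real.exp (-L)))) atTop (𝓝 0) := by
      have h2 : Tendsto (fun L : ℝ => Real.exp (-L)) atTop (𝓝 0) := Real.tendsto_exp_neg_atTop_nhds_zero
      have h3 := ((h2.const_mul N.C0).const_mul (N.n j : ℝ)).const_mul (N.n j : ℝ)
      simpa using h3
    exact ((h1.eventually (gt_mem_nhds (show (0 : ℝ) < δ ^ 2 / 2 by positivity))).exists).imp fun L h => h.le
  refine ⟨κ, L, hκ, fun γ v hv hg hx => ?_⟩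
  have hC0 : 0 ≤ N.C0 := zero_le_one.trans N.one_le
  have h1 := op_sq_near (A := (N.r j γ)ᵀ) (x := N.xL j γ) (c := N.C0 * Real.exp (-N.gap γ j)) (by positivity) (N.nearL j γ) hv
  rw [hs_transpose] at h1
  have h2 : (inner ℝ (N.xL j γ) v) ^ 2 ≤ κ ^ 2 := by
    rw [← sq_abs]
    exact pow_le_pow_left₀ (abs_nonneg _) hx.le 2
  have h3 : Real.exp (-N.gap γ j) ≤ Real.exp (-L) := Real.exp_le_exp.2 (by linarith)
  have h4 : (N.n j : ℝ) * (N.C0 * Real.exp (-N.gap γ j)) ≤ N.n j * (N.C0 * Real.exp (-L)) := by gcongr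
  have h5 := hs_nonneg (N.r j γ)
  have h6 := hs_le_card (N.r j γ)
  rw [Fintype.card_fin] at h6
  have h7 : ‖op (N.r j γ)ᵀ v‖ ^ 2 ≤ (κ ^ 2 + N.n j * (N.C0 * Real.exp (-L))) * (N.n j * ‖op (N.r j γ)‖ ^ 2) := by
    refine h1.trans (mul_le_mul (add_le_add h2 h4) h6 h5 (by positivity))
  have h8 : ‖op (N.r j γ)ᵀ v‖ ^ 2 ≤ (δ * ‖op (N.r j γ)‖) ^ 2 := by
    refine h7.trans ?_
    have h9 : (κ ^ 2 + N.n j * (N.C0 * Real.exp (-L))) * (N.n j * ‖op (N.r j γ)‖ ^ 2) =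
        (N.n j * κ ^ 2 + N.n j * (N.n j * (N.C0 * Real.exp (-L)))) * ‖op (N.r j γ)‖ ^ 2 := by ring
    rw [h9, mul_pow]
    exact mul_le_mul_of_nonneg_right (by linarith) (sq_nonneg _)
  exact abs_le_of_sq_le_sq' h8 (by positivity) |>.2

end Data

section Defs

variable {G1 X G Λ : Type} [Group G1] [MeasurableSpace X] (μ : Measure X) [MulAction G1 X]
  [MeasurableConstSMul G1 X] [SMulInvariantMeasure G1 X μ] [IsProbabilityMeasure μ]
  [Group G] [Group Λ] [Countable Λ] (a : Cocy G1 X Λ) (E : Emb Λ G)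

/-- No mass near the hyperplanes, right data. -/
def LFR {m : ℕ} (ρ : G → Matrix (Fin m) (Fin m) ℝ) {I : Type} (f : I → G1) (fl : Filter I) : Prop :=
  ∀ ε : ℝ, 0 < ε → ∃ δ : ℝ, 0 < δ ∧ ∀ᶠ i in fl, ∀ v : EuclideanSpace ℝ (Fin m), ‖v‖ = 1 →
    mass μ a E {γ | ‖op (ρ γ) v‖ ≤ δ * ‖op (ρ γ)‖} (f i) ≤ ε

/-- No mass near the hyperplanes, left data. -/
def LFL {m : ℕ} (ρ : G → Matrix (Fin m) (Fin m) ℝ) {I : Type} (f : I → G1) (fl : Filter I) : Prop :=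
  ∀ ε : ℝ, 0 < ε → ∃ δ : ℝ, 0 < δ ∧ ∀ᶠ i in fl, ∀ v : EuclideanSpace ℝ (Fin m), ‖v‖ = 1 →
    mass μ a E {γ | ‖op (ρ γ)ᵀ v‖ ≤ δ * ‖op (ρ γ)‖} (f i) ≤ ε

end Defs

variable {G1 X G Λ : Type} [Group G1] [TopologicalSpace G1] [IsTopologicalGroup G1] [MeasurableSpace X] {μ : Measure X}
  [MulAction G1 X] [MeasurableConstSMul G1 X] [SMulInvariantMeasure G1 X μ] [IsProbabilityMeasure μ]
  [Group G] [Group Λ] [Countable Λ] {a : Cocy G1 X Λ} {E : Emb Λ G} {r : ℕ} {A : Gp G r} {N : ND G (Fin r)}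

/-- For a family of type `j` almost all the mass is on the sets `Sv`. -/
theorem lf_Sv (hg : ∀ γ i, N.gap γ i = A.gap γ i) {j : Fin r} {I : Type} {f : I → G1} {fl : Filter I}
    (ht : IsType μ a E A f fl j) (hl : LFR μ a E (N.r j) f fl) {ε : ℝ} (hε : 0 < ε) :
    ∃ C κ : ℝ, 0 ≤ C ∧ 0 < κ ∧ ∀ L : ℝ, ∀ᶠ i in fl, ∀ e : EuclideanSpace ℝ (Fin (N.n j)), ‖e‖ = 1 →
      mass μ a E (N.Sv j C κ L e)ᶜ (f i) ≤ ε := by
  obtain ⟨R, hR⟩ := ht (ε / 2) (half_pos hε)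
  obtain ⟨δ, hδ, hl⟩ := hl (ε / 2) (half_pos hε)
  obtain ⟨κ, L₀, hκ, hs⟩ := small_right N j hδ
  refine ⟨R, κ, Nat.cast_nonneg R, hκ, fun L => ?_⟩
  filter_upwards [hR ⌈max L L₀⌉₊, hl] with i h1 h2 e he
  have h3 : (N.Sv j R κ L e)ᶜ ⊆ (one A j R ⌈max L L₀⌉₊)ᶜ ∪ {γ | ‖op (N.r j γ) e‖ ≤ δ * ‖op (N.r j γ)‖} := by
    intro γ hγ
    by_cases h4 : γ ∈ one A j R ⌈max L L₀⌉₊
    · refine Or.inr (hs γ e he ?_ ?_)
      · rw [hg]
        exact (le_max_right L L₀).trans ((Nat.le_ceil _).trans h4.1.le)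
      · by_contra hc
        refine hγ ⟨fun i hi => ?_, ?_, not_lt.1 hc⟩
        · rw [hg]
          exact h4.2 i hi
        · rw [hg]
          exact (le_max_left L L₀).trans ((Nat.le_ceil _).trans h4.1.le)
    · exact Or.inl h4
  have h4 := (mass_mono (μ := μ) (a := a) (E := E) h3 (f i)).trans (mass_union_le _ _ _)
  have h5 := mass_compl (μ := μ) (a := a) (E := E) (one A j R ⌈max L L₀⌉₊) (f i)
  have h6 := h2 e he
  linarith

/-- The same for the left data. -/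
theorem lf_Svl (hg : ∀ γ i, N.gap γ i = A.gap γ i) {j : Fin r} {I : Type} {f : I → G1} {fl : Filter I}
    (ht : IsType μ a E A f fl j) (hl : LFL μ a E (N.r j) f fl) {ε : ℝ} (hε : 0 < ε) :
    ∃ C κ : ℝ, 0 ≤ C ∧ 0 < κ ∧ ∀ L : ℝ, ∀ᶠ i in fl, ∀ e : EuclideanSpace ℝ (Fin (N.n j)), ‖e‖ = 1 →
      mass μ a E (Svl N j C κ L e)ᶜ (f i) ≤ ε := by
  obtain ⟨R, hR⟩ := ht (ε / 2) (half_pos hε)
  obtain ⟨δ, hδ, hl⟩ := hl (ε / 2) (half_pos hε)
  obtain ⟨κ, L₀, hκ, hs⟩ := small_left N j hδ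
  refine ⟨R, κ, Nat.cast_nonneg R, hκ, fun L => ?_⟩
  filter_upwards [hR ⌈max L L₀⌉₊, hl] with i h1 h2 e he
  have h3 : (Svl N j R κ L e)ᶜ ⊆ (one A j R ⌈max L L₀⌉₊)ᶜ ∪ {γ | ‖op (N.r j γ)ᵀ e‖ ≤ δ * ‖op (N.r j γ)‖} := by
    intro γ hγ
    by_cases h4 : γ ∈ one A j R ⌈max L L₀⌉₊
    · refine Or.inr (hs γ e he ?_ ?_)
      · rw [hg]
        exact (le_max_right L L₀).trans ((Nat.le_ceil _).trans h4.1.le)
      · by_contra hc
        refine hγ ⟨fun i hi => ?_, ?_, not_lt.1 hc⟩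
        · rw [hg]
          exact h4.2 i hi
        · rw [hg]
          exact (le_max_left L L₀).trans ((Nat.le_ceil _).trans h4.1.le)
    · exact Or.inl h4
  have h4 := (mass_mono (μ := μ) (a := a) (E := E) h3 (f i)).trans (mass_union_le _ _ _)
  have h5 := mass_compl (μ := μ) (a := a) (E := E) (one A j R ⌈max L L₀⌉₊) (f i)
  have h6 := h2 e he
  linarith

end Pool.Agent.Helper20.FQ
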