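import Pool.Agent.Helper84.GD.Basic

/-!
# Project FQ (MP_0f6f3f_an), layer NI/INS, geometry: products with one factor of type `j`

`D.opp j b h = rho j (kR b * kL h) 0 0` is the inner product of the right datum of `b` and the left datum of `h` at the node `j`. If it is at least `κ` and one of the two elements is of type `j` (the gaps `≠ j` are
at most `C`; the other element is arbitrary) then there is no cancellation in ALL representations: `tw l b + tw l h ≤ tw l (b h) + R`, and the gaps are additive. `add_right`: `h` of type `j`; `add_left`: `b` of type `j`.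
-/

set_option autoImplicit false

open Filter Topology Matrix

namespace Pool.Agent.Helper84.GDL

open scoped Matrix.Norms.L2Operator

variable {𝔾 : Type} [Group 𝔾] [TopologicalSpace 𝔾] {ι : Type} [Fintype ι] [DecidableEq ι] (D : GD 𝔾 ι)

namespace GD

theorem abs_entry_le (l : ι) (g : 𝔾) (i i' : Fin (D.d l + 1)) : |D.rho l g i i'| ≤ ‖D.rho l g‖ := by
  have h3 := Matrix.l2_opNorm_mulVec (D.rho l g) (PiLp.single 2 i' (1 : ℝ) : EuclideanSpace ℝ (Fin (D.d l + 1)))
  rw [PiLp.norm_single, norm_one, mul_one] at h3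
  refine le_trans ?_ h3
  refine le_trans (le_of_eq ?_) (PiLp.norm_apply_le _ i)
  rw [Real.norm_eq_abs]
  congr 1
  simp

theorem rho_entry (l : ι) (c c' : ι → ℝ) (g : 𝔾) (i i' : Fin (D.d l + 1)) :
    D.rho l (D.ea c * g * D.ea c') i i' =
      Real.exp (∑ j, (D.top l j - D.n l i j) * c j) * D.rho l g i i' * Real.exp (∑ j, (D.top l j - D.n l i' j) * c' j) := by
  rw [map_mul, map_mul, D.rho_ea, D.rho_ea, Matrix.mul_diagonal, Matrix.diagonal_mul]

theorem sum_single (l : ι) (i : Fin (D.d l + 1)) (j : ι) (t : ℝ) :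
    ∑ k, (D.top l k - D.n l i k) * (Pi.single j t : ι → ℝ) k = (D.top l j - D.n l i j) * t := by
  rw [Finset.sum_eq_single j, Pi.single_eq_same]
  · intro k _ hk
    rw [Pi.single_eq_of_ne hk, mul_zero]
  · exact fun h => absurd (Finset.mem_univ j) h

/-- The `00` entry of a contracted element is one. -/
theorem entry_of_tendsto {x : 𝔾} {j : ι} (h : Tendsto (fun t : ℝ => D.ea (Pi.single j t) * x * D.ea (Pi.single j (-t))) atTop (𝓝 1))
    (l : ι) : D.rho l x 0 0 = 1 := by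
  have h1 : Tendsto (fun t : ℝ => D.rho l (D.ea (Pi.single j t) * x * D.ea (Pi.single j (-t))) 0 0) atTop (𝓝 (D.rho l 1 0 0)) :=
    (((continuous_apply_apply (0 : Fin (D.d l + 1)) (0 : Fin (D.d l + 1))).comp (D.rho_cont l)).tendsto 1).comp h
  rw [map_one, Matrix.one_apply_eq] at h1
  have h2 : ∀ t : ℝ, D.rho l (D.ea (Pi.single j t) * x * D.ea (Pi.single j (-t))) 0 0 = D.rho l x 0 0 := by
    intro t
    rw [D.rho_entry, D.sum_single, D.sum_single, mul_right_comm, ← Real.exp_add]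
    rw [show (D.top l j - D.n l 0 j) * t + (D.top l j - D.n l 0 j) * (-t) = 0 by ring, Real.exp_zero, one_mul]
  simp only [h2] at h1
  exact tendsto_nhds_unique tendsto_const_nhds h1

theorem entry_of_tendsto' {y : 𝔾} {j : ι} (h : Tendsto (fun t : ℝ => D.ea (Pi.single j (-t)) * y * D.ea (Pi.single j t)) atTop (𝓝 1))
    (l : ι) : D.rho l y 0 0 = 1 := by
  have h1 : Tendsto (fun t : ℝ => D.rho l (D.ea (Pi.single j (-t)) * y * D.ea (Pi.single j t)) 0 0) atTop (𝓝 (D.rho l 1 0 0)) :=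
    (((continuous_apply_apply (0 : Fin (D.d l + 1)) (0 : Fin (D.d l + 1))).comp (D.rho_cont l)).tendsto 1).comp h
  rw [map_one, Matrix.one_apply_eq] at h1
  have h2 : ∀ t : ℝ, D.rho l (D.ea (Pi.single j (-t)) * y * D.ea (Pi.single j t)) 0 0 = D.rho l y 0 0 := by
    intro t
    rw [D.rho_entry, D.sum_single, D.sum_single, mul_right_comm, ← Real.exp_add]
    rw [show (D.top l j - D.n l 0 j) * (-t) + (D.top l j - D.n l 0 j) * t = 0 by ring, Real.exp_zero, one_mul]
  simp only [h2] at h1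
  exact tendsto_nhds_unique tendsto_const_nhds h1

/-- Elements contracted by `ea t · ea (-t)` fix the base hyperplane. -/
theorem hyp_of_tendsto {x : 𝔾} {j : ι} (h : Tendsto (fun t : ℝ => D.ea (Pi.single j t) * x * D.ea (Pi.single j (-t))) atTop (𝓝 1))
    (i : Fin (D.d j + 1)) (hi : i ≠ 0) : D.rho j x 0 i = 0 := by
  have h1 : Tendsto (fun t : ℝ => D.rho j (D.ea (Pi.single j t) * x * D.ea (Pi.single j (-t))) 0 i) atTop (𝓝 (D.rho j 1 0 i)) :=
    (((continuous_apply_apply (0 : Fin (D.d j + 1)) i).comp (D.rho_cont j)).tendsto 1).comp h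
  rw [map_one, Matrix.one_apply_ne hi.symm] at h1
  have hn : (1 : ℝ) ≤ D.n j i j := by exact_mod_cast D.n_pos j i hi
  have h2 : ∀ t : ℝ, 0 ≤ t → |D.rho j x 0 i| ≤ |D.rho j (D.ea (Pi.single j t) * x * D.ea (Pi.single j (-t))) 0 i| := by
    intro t ht
    rw [D.rho_entry, D.sum_single, D.sum_single, mul_right_comm, ← Real.exp_add, D.n_zero, Nat.cast_zero, abs_mul, Real.abs_exp]
    refine le_mul_of_one_le_left (abs_nonneg _) (Real.one_le_exp ?_)
    nlinarith
  have h3 : Tendsto (fun t : ℝ => |D.rho j (D.ea (Pi.single j t) * x * D.ea (Pi.single j (-t))) 0 i|) atTop (𝓝 0) := by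
    have := h1.abs
    rwa [abs_zero] at this
  have h4 : |D.rho j x 0 i| ≤ 0 := ge_of_tendsto h3 ((eventually_ge_atTop 0).mono fun t ht => h2 t ht)
  exact abs_nonpos_iff.1 h4

theorem lin_of_tendsto {y : 𝔾} {j : ι} (h : Tendsto (fun t : ℝ => D.ea (Pi.single j (-t)) * y * D.ea (Pi.single j t)) atTop (𝓝 1))
    (i : Fin (D.d j + 1)) (hi : i ≠ 0) : D.rho j y i 0 = 0 := by
  have h1 : Tendsto (fun t : ℝ => D.rho j (D.ea (Pi.single j (-t)) * y * D.ea (Pi.single j t)) i 0) atTop (𝓝 (D.rho j 1 i 0)) :=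
    (((continuous_apply_apply i (0 : Fin (D.d j + 1))).comp (D.rho_cont j)).tendsto 1).comp h
  rw [map_one, Matrix.one_apply_ne hi] at h1
  have hn : (1 : ℝ) ≤ D.n j i j := by exact_mod_cast D.n_pos j i hi
  have h2 : ∀ t : ℝ, 0 ≤ t → |D.rho j y i 0| ≤ |D.rho j (D.ea (Pi.single j (-t)) * y * D.ea (Pi.single j t)) i 0| := by
    intro t ht
    rw [D.rho_entry, D.sum_single, D.sum_single, mul_right_comm, ← Real.exp_add, D.n_zero, Nat.cast_zero, abs_mul, Real.abs_exp]
    refine le_mul_of_one_le_left (abs_nonneg _) (Real.one_le_exp ?_)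
    nlinarith
  have h3 : Tendsto (fun t : ℝ => |D.rho j (D.ea (Pi.single j (-t)) * y * D.ea (Pi.single j t)) i 0|) atTop (𝓝 0) := by
    have := h1.abs
    rwa [abs_zero] at this
  have h4 : |D.rho j y i 0| ≤ 0 := ge_of_tendsto h3 ((eventually_ge_atTop 0).mono fun t ht => h2 t ht)
  exact abs_nonpos_iff.1 h4

/-- Removing a bounded factor on the right. -/
theorem tw_right_ge (l : ι) (g k : 𝔾) : D.tw l g - D.tw l k⁻¹ ≤ D.tw l (g * k) := by
  have h := D.tw_mul_le l (g * k) k⁻¹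
  rw [mul_inv_cancel_right] at h
  linarith

theorem tw_left_ge (l : ι) (g k : 𝔾) : D.tw l g - D.tw l k⁻¹ ≤ D.tw l (k * g) := by
  have h := D.tw_mul_le l k⁻¹ (k * g)
  rw [inv_mul_cancel_left] at h
  linarith

theorem tw_ge_entry (l : ι) {g : 𝔾} {s : ℝ} (h : Real.exp s ≤ |D.rho l g 0 0|) : s ≤ D.tw l g := by
  have h1 := h.trans (D.abs_entry_le l g 0 0)
  rw [D.norm_rho] at h1
  exact Real.exp_le_exp.1 h1

theorem tw_kak (l : ι) {k k' : 𝔾} (hk : k ∈ D.K) (hk' : k' ∈ D.K) (g : 𝔾) : D.tw l (k * g * k') = D.tw l g := by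
  rw [D.tw_eq, D.tw_eq, map_mul, map_mul, D.norm_mul_orth hk', D.norm_orth_mul hk]

theorem ea_split (j : ι) (c : ι → ℝ) : D.ea c = D.ea (Pi.single j (c j)) * D.ea (Function.update c j 0) := by
  rw [← D.ea_add]
  congr 1
  funext i
  by_cases hi : i = j
  · subst hi
    simp
  · simp [hi]

theorem sum_top_zero (l : ι) (c : ι → ℝ) : ∑ k, (D.top l k - D.n l 0 k) * c k = ∑ k, D.top l k * c k :=
  Finset.sum_congr rfl fun k _ => by rw [D.n_zero, Nat.cast_zero, sub_zero]

/-- **No cancellation**, the right factor is of type `j`. -/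
theorem tw_right [IsTopologicalGroup 𝔾] (j : ι) {κ C : ℝ} (hκ : 0 < κ) (hC : 0 ≤ C) : ∃ R : ℝ, 0 ≤ R ∧ ∀ b h : 𝔾,
    (∀ i, i ≠ j → D.mu h i ≤ C) → κ ≤ |D.opp j b h| → ∀ l, D.tw l b + D.tw l h ≤ D.tw l (b * h) + R := by
  obtain ⟨B, hB, hcell⟩ := D.cell j κ hκ D.K D.cpt
  obtain ⟨B', hB', hpar⟩ := D.par j B hB
  have hP : IsCompact (D.ea '' (Set.pi Set.univ fun _ : ι => Set.Icc (0 : ℝ) C)) :=
    (isCompact_univ_pi fun _ => isCompact_Icc).image D.ea_cont
  obtain ⟨R, hR0, hR⟩ := D.exists_bd ((hB.union hB').union hP)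
  refine ⟨3 * R + ∑ l, ∑ i, D.top l i * C, ?_, fun b h hh ho l => ?_⟩
  · have : 0 ≤ ∑ l, ∑ i, D.top l i * C := Finset.sum_nonneg fun l _ => Finset.sum_nonneg fun i _ => mul_nonneg (D.top_nonneg l i) hC
    linarith
  obtain ⟨x, hx, m, hm, y, hy, e, hx1, hm1, hy1⟩ := hcell (D.kR b * D.kL h) (D.K.mul_mem (D.kR_mem b) (D.kL_mem h)) ho
  have hy2 := hpar y hy (fun i hi => D.lin_of_tendsto hy1 i hi) (D.mu h j) (D.mu_nonneg h j)
  set s := D.mu h j with hs
  set c' := Function.update (D.mu h) j 0 with hc'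
  set ys := D.ea (Pi.single j (-s)) * y * D.ea (Pi.single j s) with hys
  have hc'mem : D.ea c' ∈ D.ea '' (Set.pi Set.univ fun _ : ι => Set.Icc (0 : ℝ) C) := by
    refine ⟨c', fun i _ => ?_, rfl⟩
    by_cases hi : i = j
    · rw [hi, hc', Function.update_self]
      exact ⟨le_rfl, hC⟩
    · rw [hc', Function.update_of_ne hi]
      exact ⟨D.mu_nonneg h i, hh i hi⟩
  have e1 : b * h = D.kL b * ((((D.ea (D.mu b) * x * D.ea (Pi.single j s)) * m) * ys) * D.ea c') * D.kR h := by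
    have e2 : D.ea (Pi.single j s) * ys = y * D.ea (Pi.single j s) := by
      rw [hys, ← mul_assoc, ← mul_assoc, ← D.ea_add]
      have : (Pi.single j s : ι → ℝ) + Pi.single j (-s) = 0 := by rw [← Pi.single_add, add_neg_cancel, Pi.single_zero]
      rw [this, D.ea_zero, one_mul]
    have e3 : D.ea (D.mu b) * x * D.ea (Pi.single j s) * m * ys = D.ea (D.mu b) * (x * m * y) * D.ea (Pi.single j s) := by
      calc D.ea (D.mu b) * x * D.ea (Pi.single j s) * m * ys = D.ea (D.mu b) * x * (D.ea (Pi.single j s) * m) * ys := by group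
        _ = D.ea (D.mu b) * x * (m * D.ea (Pi.single j s)) * ys := by rw [← hm1 s]
        _ = D.ea (D.mu b) * x * m * (D.ea (Pi.single j s) * ys) := by group
        _ = _ := by rw [e2]; group
    rw [e3, ← e]
    conv_lhs => rw [D.kak b, D.kak h, D.ea_split j (D.mu h), ← hc', ← hs]
    group
  have h1 := D.tw_kak l (D.kL_mem b) (D.kR_mem h) ((((D.ea (D.mu b) * x * D.ea (Pi.single j s)) * m) * ys) * D.ea c')
  rw [← e1] at h1
  have h2 := D.tw_right_ge l (((D.ea (D.mu b) * x * D.ea (Pi.single j s)) * m) * ys) (D.ea c')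
  have h3 := D.tw_right_ge l ((D.ea (D.mu b) * x * D.ea (Pi.single j s)) * m) ys
  have h4 := D.tw_right_ge l (D.ea (D.mu b) * x * D.ea (Pi.single j s)) m
  have h5 : D.tw l b + D.top l j * s ≤ D.tw l (D.ea (D.mu b) * x * D.ea (Pi.single j s)) := by
    refine D.tw_ge_entry l ?_
    rw [D.rho_entry, D.entry_of_tendsto hx1 l, mul_one, ← Real.exp_add, Real.abs_exp, D.sum_single, D.sum_top_zero, D.n_zero,
      Nat.cast_zero, sub_zero]
    exact le_rfl
  have h6 := (hR _ (Or.inr hc'mem) l).2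
  have h7 := (hR _ (Or.inl (Or.inr hy2)) l).2
  have h8 := (hR _ (Or.inl (Or.inl hm)) l).2
  have h9 : D.tw l h ≤ D.top l j * s + ∑ l, ∑ i, D.top l i * C := by
    have e4 : D.tw l h = D.top l j * s + ∑ i ∈ Finset.univ.erase j, D.top l i * D.mu h i := by
      unfold tw
      rw [← Finset.add_sum_erase _ _ (Finset.mem_univ j)]
    rw [e4]
    refine add_le_add_right ?_ _
    calc ∑ i ∈ Finset.univ.erase j, D.top l i * D.mu h i ≤ ∑ i ∈ Finset.univ.erase j, D.top l i * C :=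
          Finset.sum_le_sum fun i hi => mul_le_mul_of_nonneg_left (hh i (Finset.mem_erase.1 hi).1) (D.top_nonneg l i)
      _ ≤ ∑ i, D.top l i * C := Finset.sum_le_sum_of_subset_of_nonneg (Finset.erase_subset _ _) fun i _ _ =>
          mul_nonneg (D.top_nonneg l i) hC
      _ ≤ ∑ l, ∑ i, D.top l i * C := Finset.single_le_sum (f := fun l => ∑ i, D.top l i * C)
          (fun l _ => Finset.sum_nonneg fun i _ => mul_nonneg (D.top_nonneg l i) hC) (Finset.mem_univ l)
  linarith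

/-- **No cancellation**, the left factor is of type `j`. -/
theorem tw_left [IsTopologicalGroup 𝔾] (j : ι) {κ C : ℝ} (hκ : 0 < κ) (hC : 0 ≤ C) : ∃ R : ℝ, 0 ≤ R ∧ ∀ g k : 𝔾,
    (∀ i, i ≠ j → D.mu g i ≤ C) → κ ≤ |D.opp j g k| → ∀ l, D.tw l g + D.tw l k ≤ D.tw l (g * k) + R := by
  obtain ⟨B, hB, hcell⟩ := D.cell j κ hκ D.K D.cpt
  obtain ⟨B', hB', hpar⟩ := D.par' j B hB
  have hP : IsCompact (D.ea '' (Set.pi Set.univ fun _ : ι => Set.Icc (0 : ℝ) C)) :=
    (isCompact_univ_pi fun _ => isCompact_Icc).image D.ea_cont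
  obtain ⟨R, hR0, hR⟩ := D.exists_bd ((hB.union hB').union hP)
  refine ⟨3 * R + ∑ l, ∑ i, D.top l i * C, ?_, fun g k hg ho l => ?_⟩
  · have : 0 ≤ ∑ l, ∑ i, D.top l i * C := Finset.sum_nonneg fun l _ => Finset.sum_nonneg fun i _ => mul_nonneg (D.top_nonneg l i) hC
    linarith
  obtain ⟨x, hx, m, hm, y, hy, e, hx1, hm1, hy1⟩ := hcell (D.kR g * D.kL k) (D.K.mul_mem (D.kR_mem g) (D.kL_mem k)) ho
  have hx2 := hpar x hx (fun i hi => D.hyp_of_tendsto hx1 i hi) (D.mu g j) (D.mu_nonneg g j)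
  set s := D.mu g j with hs
  set c' := Function.update (D.mu g) j 0 with hc'
  set xs := D.ea (Pi.single j s) * x * D.ea (Pi.single j (-s)) with hxs
  have hc'mem : D.ea c' ∈ D.ea '' (Set.pi Set.univ fun _ : ι => Set.Icc (0 : ℝ) C) := by
    refine ⟨c', fun i _ => ?_, rfl⟩
    by_cases hi : i = j
    · rw [hi, hc', Function.update_self]
      exact ⟨le_rfl, hC⟩
    · rw [hc', Function.update_of_ne hi]
      exact ⟨D.mu_nonneg g i, hg i hi⟩
  have e1 : g * k = D.kL g * (D.ea c' * (xs * (m * (D.ea (Pi.single j s) * y * D.ea (D.mu k))))) * D.kR k := by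
    have e2 : xs * D.ea (Pi.single j s) = D.ea (Pi.single j s) * x := by
      rw [hxs, mul_assoc, ← D.ea_add]
      have : (Pi.single j (-s) : ι → ℝ) + Pi.single j s = 0 := by rw [← Pi.single_add, neg_add_cancel, Pi.single_zero]
      rw [this, D.ea_zero, mul_one]
    have e3 : xs * (m * (D.ea (Pi.single j s) * y * D.ea (D.mu k))) = D.ea (Pi.single j s) * (x * m * y) * D.ea (D.mu k) := by
      calc xs * (m * (D.ea (Pi.single j s) * y * D.ea (D.mu k))) = xs * (m * D.ea (Pi.single j s)) * y * D.ea (D.mu k) := by group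
        _ = xs * (D.ea (Pi.single j s) * m) * y * D.ea (D.mu k) := by rw [hm1 s]
        _ = (xs * D.ea (Pi.single j s)) * m * y * D.ea (D.mu k) := by group
        _ = _ := by rw [e2]; group
    rw [e3, ← e]
    have e4 : D.ea (D.mu g) = D.ea c' * D.ea (Pi.single j s) := by rw [D.ea_split j (D.mu g), D.ea_comm, ← hc', ← hs]
    conv_lhs => rw [D.kak g, D.kak k, e4]
    group
  have h1 := D.tw_kak l (D.kL_mem g) (D.kR_mem k) (D.ea c' * (xs * (m * (D.ea (Pi.single j s) * y * D.ea (D.mu k)))))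
  rw [← e1] at h1
  have h2 := D.tw_left_ge l (xs * (m * (D.ea (Pi.single j s) * y * D.ea (D.mu k)))) (D.ea c')
  have h3 := D.tw_left_ge l (m * (D.ea (Pi.single j s) * y * D.ea (D.mu k))) xs
  have h4 := D.tw_left_ge l (D.ea (Pi.single j s) * y * D.ea (D.mu k)) m
  have h5 : D.top l j * s + D.tw l k ≤ D.tw l (D.ea (Pi.single j s) * y * D.ea (D.mu k)) := by
    refine D.tw_ge_entry l ?_
    rw [D.rho_entry, D.entry_of_tendsto' hy1 l, mul_one, ← Real.exp_add, Real.abs_exp, D.sum_single, D.sum_top_zero, D.n_zero,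
      Nat.cast_zero, sub_zero]
    exact le_rfl
  have h6 := (hR _ (Or.inr hc'mem) l).2
  have h7 := (hR _ (Or.inl (Or.inr hx2)) l).2
  have h8 := (hR _ (Or.inl (Or.inl hm)) l).2
  have h9 : D.tw l g ≤ D.top l j * s + ∑ l, ∑ i, D.top l i * C := by
    have e4 : D.tw l g = D.top l j * s + ∑ i ∈ Finset.univ.erase j, D.top l i * D.mu g i := by
      unfold tw
      rw [← Finset.add_sum_erase _ _ (Finset.mem_univ j)]
    rw [e4]
    refine add_le_add_right ?_ _
    calc ∑ i ∈ Finset.univ.erase j, D.top l i * D.mu g i ≤ ∑ i ∈ Finset.univ.erase j, D.top l i * C :=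
          Finset.sum_le_sum fun i hi => mul_le_mul_of_nonneg_left (hg i (Finset.mem_erase.1 hi).1) (D.top_nonneg l i)
      _ ≤ ∑ i, D.top l i * C := Finset.sum_le_sum_of_subset_of_nonneg (Finset.erase_subset _ _) fun i _ _ =>
          mul_nonneg (D.top_nonneg l i) hC
      _ ≤ ∑ l, ∑ i, D.top l i * C := Finset.single_le_sum (f := fun l => ∑ i, D.top l i * C)
          (fun l _ => Finset.sum_nonneg fun i _ => mul_nonneg (D.top_nonneg l i) hC) (Finset.mem_univ l)
  linarith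

/-- From the norms to the gaps. -/
theorem mu_of_tw {b h : 𝔾} {R : ℝ} (hR : 0 ≤ R) (hd : ∀ l, D.tw l b + D.tw l h ≤ D.tw l (b * h) + R) (i : ι) :
    |D.mu (b * h) i - (D.mu b i + D.mu h i)| ≤ (∑ l, |D.C i l|) * R := by
  have h1 : D.mu (b * h) i - (D.mu b i + D.mu h i) = ∑ l, D.C i l * (D.tw l (b * h) - (D.tw l b + D.tw l h)) := by
    rw [D.mu_eq, D.mu_eq b, D.mu_eq h, ← Finset.sum_add_distrib, ← Finset.sum_sub_distrib]
    exact Finset.sum_congr rfl fun l _ => by ring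
  rw [h1, Finset.sum_mul]
  refine (Finset.abs_sum_le_sum_abs _ _).trans (Finset.sum_le_sum fun l _ => ?_)
  rw [abs_mul]
  refine mul_le_mul_of_nonneg_left ?_ (abs_nonneg _)
  have h2 := hd l
  have h3 := D.tw_mul_le l b h
  rw [abs_le]
  constructor <;> linarith

end GD

end Pool.Agent.Helper84.GDL
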