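import Pool.Agent.Helper85.KL.Biloc

/-!
# Project FQ (MP_0f6f3f_an): matching of the nodes from the sandwiches of both directions

`s u` is the type of the node `u` of `A` in `B`, `t j` the type of the node `j` of `B` in `A`. If the laws `θ u a` and `θ' j b`
are tight in the coordinates different from `s u`, `t j`, then `t (s u) = u` and `s (t j) = j` (`node_eq`), so `s` is a bijection
(`exists_match`), and after renaming the nodes of `B` the sandwiches are exchanged (`sand_re`).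
-/

set_option autoImplicit false

namespace Pool.Agent.Helper20.FQ

open Set Pool.Agent.Helper85.KL

variable {A B I J : Type}

/-- The coordinates different from `j` of the law are tight. -/
def TightN (f : A → I → ℝ) (i : I) (m : Set A → ℝ) : Prop :=
  ∀ ε > 0, ∃ C : ℝ, m {a | ∃ v, v ≠ i ∧ C < f a v} ≤ ε

theorem node_eq {p : A → B → ℝ} {a1 : A → I → ℝ} {b1 : B → J → ℝ} {θ : A → Set B → ℝ} {θ' : B → Set A → ℝ}
    {u u' : I} {j : J} (hp : DS p) (hb : ∀ b i, 0 ≤ b1 b i)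
    (h : Sand p (nr a1 u) (fun a => a1 a u) (nr b1 j) (fun b => b1 b j) θ)
    (h' : Sand (fun b a => p a b) (nr b1 j) (fun b => b1 b j) (nr a1 u') (fun a => a1 a u') θ')
    (ht : ∀ a, TightN b1 j (θ a)) (ht' : ∀ b, TightN a1 u' (θ' b)) (hex : ∀ L : ℝ, ∃ a, L ≤ a1 a u') : u = u' := by
  by_contra hne
  obtain ⟨L₁, C₁, h1⟩ := h'.ins (1 / 64) (by norm_num)
  obtain ⟨C₂, h2⟩ := h.rep (1 / 16) (by norm_num)
  obtain ⟨a, ha⟩ := hex (L₁ + C₂)
  obtain ⟨Ca, hCa⟩ := ht a (1 / 2) (by norm_num)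
  -- for every `L'` there is a bounded `b` whose law sees the node `u` beyond `L'`
  have key : ∀ L' : ℝ, ∃ b, θ' b {a'' | a1 a'' u < L'} ≤ 1 / 8 ∧ ∀ v, v ≠ j → b1 b v ≤ Ca := by
    intro L'
    have h3 : θ a {b | 1 / 8 < θ' b {a'' | a1 a'' u < L'}} ≤ 1 / 8 + 1 / 16 := by
      refine h2 a (L' + C₁) (1 / 8) _ fun a' haa' hL => ?_
      have h4 : L₁ ≤ a1 a' u' := by
        have h5 := (abs_le.1 (haa' u' (Ne.symm hne))).2
        linarith
      have h5 := (hp.row a').markov (f := fun b => θ' b {a'' | ¬ nr a1 u' C₁ a' a''}) (fun b => (h'.prob b).nn _)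
        (fun b => (h'.prob b).le_one _) (η := 1 / 8) (e := 1 / 64) (by norm_num) (h1 a' h4)
      refine le_trans ((hp.row a').mass_mono fun b hb => ?_) (le_trans h5 (by norm_num))
      refine lt_of_lt_of_le hb ((h'.prob b).mono _ _ fun a'' ha'' => ?_)
      intro hc
      have h6 := (abs_le.1 (hc u hne)).2
      have h7 : a1 a'' u < L' := ha''
      linarith
    obtain ⟨b, hb1, hb2⟩ := (h.prob a).exists_both (S := {b | 1 / 8 < θ' b {a'' | a1 a'' u < L'}})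
      (T := {b | ∃ v, v ≠ j ∧ Ca < b1 b v}) (by linarith)
    refine ⟨b, not_lt.1 hb1, fun v hv => ?_⟩
    by_contra hc
    exact hb2 ⟨v, hv, not_le.1 hc⟩
  obtain ⟨b₀, -, hb₀⟩ := key 0
  obtain ⟨η, hη, K, h3⟩ := h'.per (1 / 4) (by norm_num) |Ca|
  obtain ⟨D, hD⟩ := ht' b₀ η hη
  obtain ⟨b, hb1, hb2⟩ := key (D + K + 1)
  have h4 : nr b1 j |Ca| b₀ b := by
    intro v hv
    have e1 := hb₀ v hv
    have e2 := hb2 v hv
    have e3 := hb b₀ v
    have e4 := hb b v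
    have e5 := le_abs_self Ca
    rw [abs_le]
    constructor <;> linarith
  have h5 : θ' b {a | D + K < a1 a u} ≤ 1 / 4 := by
    refine h3 b₀ b _ h4 (le_trans ((h'.prob b₀).mono _ _ ?_) hD)
    rintro a ⟨a', ha', hK⟩
    refine ⟨u, hne, ?_⟩
    have e1 := (abs_le.1 (hK u hne)).1
    have e2 : D + K < a1 a' u := ha'
    linarith
  have h6 := (h'.prob b).exists_both (S := {a'' | a1 a'' u < D + K + 1}) (T := {a | D + K < a1 a u}) (by linarith)
  obtain ⟨a', e1, e2⟩ := h6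
  have e3 : D + K + 1 ≤ a1 a' u := not_lt.1 e1
  have e4 : a1 a' u ≤ D + K := not_lt.1 e2
  linarith

/-- **Matching.** -/
theorem exists_match {p : A → B → ℝ} {a1 : A → I → ℝ} {b1 : B → J → ℝ} {θ : I → A → Set B → ℝ} {θ' : J → B → Set A → ℝ}
    {s : I → J} {t : J → I} (hp : DS p) (ha : ∀ a i, 0 ≤ a1 a i) (hb : ∀ b j, 0 ≤ b1 b j)
    (h : ∀ u, Sand p (nr a1 u) (fun a => a1 a u) (nr b1 (s u)) (fun b => b1 b (s u)) (θ u))
    (h' : ∀ j, Sand (fun b a => p a b) (nr b1 j) (fun b => b1 b j) (nr a1 (t j)) (fun a => a1 a (t j)) (θ' j))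
    (ht : ∀ u a, TightN b1 (s u) (θ u a)) (ht' : ∀ j b, TightN a1 (t j) (θ' j b))
    (hA : ∀ i, ∀ L : ℝ, ∃ a, L ≤ a1 a i) (hB : ∀ j, ∀ L : ℝ, ∃ b, L ≤ b1 b j) :
    ∃ e : I ≃ J, (∀ u, e u = s u) ∧ ∀ j, e.symm j = t j := by
  have hp' : DS fun b a => p a b := ⟨hp.col, hp.row⟩
  have h1 : ∀ u, t (s u) = u := fun u => (node_eq hp hb (h u) (h' (s u)) (ht u) (ht' (s u)) (hA _)).symm
  have h2 : ∀ j, s (t j) = j := fun j => (node_eq hp' ha (h' j) (h (t j)) (ht' j) (ht (t j)) (hB _)).symm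
  exact ⟨⟨s, t, h1, h2⟩, fun _ => rfl, fun _ => rfl⟩

theorem nr_re {b1 : B → J → ℝ} (e : I ≃ J) (i : I) : nr (fun b v => b1 b (e v)) i = nr b1 (e i) := by
  funext C x y
  unfold nr
  refine propext ⟨fun h w hw => ?_, fun h v hv => h (e v) fun hc => hv (e.injective hc)⟩
  have h1 := h (e.symm w) fun hc => hw (by rw [← hc, Equiv.apply_symm_apply])
  simpa using h1

/-- The sandwiches after renaming the nodes of `B`: exactly the hypotheses of `exists_ker`. -/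
theorem sand_re {p : A → B → ℝ} {a1 : A → I → ℝ} {b1 : B → J → ℝ} {θ : I → A → Set B → ℝ} {θ' : J → B → Set A → ℝ}
    {s : I → J} {t : J → I}
    (h : ∀ u, Sand p (nr a1 u) (fun a => a1 a u) (nr b1 (s u)) (fun b => b1 b (s u)) (θ u))
    (h' : ∀ j, Sand (fun b a => p a b) (nr b1 j) (fun b => b1 b j) (nr a1 (t j)) (fun a => a1 a (t j)) (θ' j))
    (e : I ≃ J) (hs : ∀ u, e u = s u) (ht : ∀ j, e.symm j = t j) :
    (∀ u, Sand p (nr a1 u) (fun a => a1 a u) (nr (fun b v => b1 b (e v)) u) (fun b => b1 b (e u)) (θ u)) ∧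
      ∀ u, Sand (fun b a => p a b) (nr (fun b v => b1 b (e v)) u) (fun b => b1 b (e u)) (nr a1 u) (fun a => a1 a u) (θ' (e u)) := by
  refine ⟨fun u => ?_, fun u => ?_⟩
  · rw [nr_re e u, hs u]
    exact h u
  · have h1 := h' (e u)
    rw [← ht, Equiv.symm_apply_apply] at h1
    rw [nr_re e u]
    exact h1

theorem tight_re {b1 : B → J → ℝ} (e : I ≃ J) (i : I) {m : Set B → ℝ} (h : TightN b1 (e i) m) :
    TightN (fun b v => b1 b (e v)) i m := by
  intro ε hε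
  obtain ⟨C, hC⟩ := h ε hε
  refine ⟨C, le_trans (le_of_eq ?_) hC⟩
  congr 1
  ext b
  refine ⟨?_, ?_⟩
  · rintro ⟨v, hv, hC⟩
    exact ⟨e v, fun hc => hv (e.injective hc), hC⟩
  · rintro ⟨w, hw, hC⟩
    refine ⟨e.symm w, fun hc => hw (by rw [← hc, Equiv.apply_symm_apply]), ?_⟩
    simpa using hC

end Pool.Agent.Helper20.FQ
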