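import Pool.Agent.Helper9.FQ.U4

/-!
# Project FQ (MP_0f6f3f_an), layer MATCHING: the type of a node

`IsType μ a E A f fl j`: along the filter `fl` the vectors `V_{f i} 1` live on the elements whose gap `j` is large and whose other gaps are bounded.
`comp_of_mass`: mass on the sets `one A j R L`, `L = 0, 1, …`, gives a component over the stratum of type `j`. `exists_type`: if at most one type occurs along the powers of `w` then `w ^ n` has a type.
`IsType.unique`, `IsType.comp`, `IsType.K`: uniqueness, subsequences, two sided translates by compact sets; `type_real`: from the powers of `w 1` to `w t`, `t → ∞`, of a one parameter semigroup.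
-/

set_option autoImplicit false
set_option linter.unusedSectionVars false

open MeasureTheory Filter Topology

namespace Pool.Agent.Helper20.FQ

open Pool.Agent.Helper84.NI Pool.Agent.Helper84.GVN Pool.Agent.Helper90.RK
open Pool.Agent.Helper84.GN hiding toReg
open Pool.Agent.Helper96.RK Pool.Agent.Helper66.FR Pool.Agent.Helper84.FR Pool.Agent.Helper96.FR Pool.Agent.Helper55.FR
open Pool.Agent.Helper43.TA Pool.Agent.Helper43.FQ Pool.Agent.Helper9.FQ

section Defs

variable {G1 X G Λ : Type} [Group G1] [MeasurableSpace X] (μ : Measure X) [MulAction G1 X]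
  [MeasurableConstSMul G1 X] [SMulInvariantMeasure G1 X μ] [IsProbabilityMeasure μ]
  [Group G] [Group Λ] [Countable Λ] (a : Cocy G1 X Λ) (E : Emb Λ G) {r : ℕ} (A : Gp G r)

/-- The vectors `V_{f i} 1` live on the one gap stratum of type `j`. -/
def IsType {I : Type} (f : I → G1) (fl : Filter I) (j : Fin r) : Prop :=
  ∀ β : ℝ, 0 < β → ∃ R : ℕ, ∀ L : ℕ, ∀ᶠ i in fl, 1 - β ≤ mass μ a E (one A j R L) (f i)

end Defs

variable {G1 X G Λ : Type} [Group G1] [TopologicalSpace G1] [IsTopologicalGroup G1] [MeasurableSpace X] {μ : Measure X}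
  [MulAction G1 X] [MeasurableConstSMul G1 X] [SMulInvariantMeasure G1 X μ] [IsProbabilityMeasure μ]
  [Group G] [Group Λ] [Countable Λ] {a : Cocy G1 X Λ} {E : Emb Λ G} {r : ℕ} {A : Gp G r}

theorem one_anti (j : Fin r) (R : ℕ) : Antitone fun L => one A j R L := fun _ _ h => one_mono A le_rfl h

/-- Mass on the sets `one A j R L` for every `L` gives a component over the stratum of type `j`. -/
theorem comp_of_mass {j : Fin r} {b : ℕ → G1} {R : ℕ} {β : ℝ} (hβ : 0 < β)
    (h : ∀ L : ℕ, ∀ᶠ n in atTop, β ≤ mass μ a E (one A j R L) (b n)) :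
    XPpr (A.reg (Finset.univ.erase j)) (vec μ a E b) ≠ 0 := by
  have h1 : ∀ L : ℕ, β ≤ ms μ a E (one A j R L) b := fun L =>
    ge_of_tendsto (ms_eq_lim (μ := μ) (a := a) (E := E) (one A j R L) b) ((h L).filter_mono Nat.hyperfilter_le_atTop)
  obtain ⟨η, hη, hlim⟩ := lim_vec (μ := μ) (A.reg (Finset.univ.erase j)) R (A := fun L => one A j R L) (one_anti j R)
    (fun s hs => by
      obtain ⟨m, hm⟩ := A.mem_FF.1 hs
      refine ⟨m, fun γ hγ => hm ⟨fun i hi => hγ.2 i (Finset.mem_erase.1 hi).1, fun i hi => ?_⟩⟩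
      have hij : i = j := by
        by_contra hne
        exact hi (Finset.mem_erase.2 ⟨hne, Finset.mem_univ _⟩)
      subst hij
      exact hγ.1.le) (vec μ a E b)
  refine XPpr_ne_zero _ hη fun h2 => ?_
  have h5 : Tendsto (fun L => (inner ℂ (UE.map μ (ind ℂ (one A j R L)) (vec μ a E b)) (vec μ a E b) : ℂ)) atTop
      (𝓝 (inner ℂ η (vec μ a E b))) := hlim.inner tendsto_const_nhds
  rw [h2] at h5
  have h6 : ∀ L : ℕ, (inner ℂ (UE.map μ (ind ℂ (one A j R L)) (vec μ a E b)) (vec μ a E b) : ℂ) =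
      ((ms μ a E (one A j R L) b : ℝ) : ℂ) := by
    intro L
    have h7 := inner_C (μ := μ) (Set.subset_univ (one A j R L)) (vec μ a E b)
    rw [C_univ] at h7
    rw [← inner_conj_symm, h7, Complex.conj_ofReal]
    rfl
  have h8 : Tendsto (fun L => ms μ a E (one A j R L) b) atTop (𝓝 0) := by
    have h9 := (Complex.continuous_re.tendsto (0 : ℂ)).comp h5
    rw [Complex.zero_re] at h9
    refine h9.congr fun L => ?_
    rw [Function.comp_apply, h6, Complex.ofReal_re]
  have h10 := ge_of_tendsto h8 (Eventually.of_forall h1)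
  linarith

variable {s : ℕ} {F : Subgroup G1}

/-- If the masses of the sets `one A j R L` have a lower bound for one `L` along a sequence which leaves the compact sets, then for all `L`. -/
theorem one_up (hF2 : ∀ l : Λ, Tendsto (fun g : G1 => μ {x | a.a g x = l}) (cocompact G1) (𝓝 0)) {j : Fin r}
    {b : ℕ → G1} (hb : Tendsto b atTop (cocompact G1)) {R L : ℕ} {β : ℝ} (hβ : 0 < β)
    (h : ∀ᶠ n in atTop, β ≤ mass μ a E (one A j R L) (b n)) (L' : ℕ) :
    ∀ᶠ n in atTop, β / 2 ≤ mass μ a E (one A j R L') (b n) := by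
  have h1 := ((sml_tendsto (E := E) (A := A) hF2 (max R L')).comp hb).eventually (gt_mem_nhds (half_pos hβ))
  filter_upwards [h, h1] with n h2 h3
  have h4 : one A j R L ⊆ one A j R L' ∪ sml A (max R L') := by
    intro γ hγ
    by_cases h5 : (L' : ℝ) < A.gap γ j
    · exact Or.inl ⟨h5, hγ.2⟩
    · refine Or.inr fun i => ?_
      push Not at h5
      by_cases hi : i = j
      · subst hi
        refine h5.trans ?_
        exact_mod_cast le_max_right R L'
      · refine (hγ.2 i hi).trans ?_
        exact_mod_cast le_max_left R L'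
  have h5 := (mass_mono (μ := μ) (a := a) (E := E) h4 (b n)).trans (mass_union_le _ _ _)
  have h6 : mass μ a E (sml A (max R L')) (b n) < β / 2 := h3
  linarith

/-- The powers of `w` have a type, if only one type occurs. -/
theorem exists_type (hco : ∀ J, HasCoc (A.reg J)) (hs : s + 1 = r) (D : DatN μ a F s) {w : G1} (hw : w ∈ F)
    (hwt : Tendsto (fun n : ℕ => w ^ n) atTop (cocompact G1))
    (hsingle : ∀ (i j : Fin r) (n m : ℕ → ℕ), Tendsto n atTop atTop → Tendsto m atTop atTop →
      XPpr (A.reg (Finset.univ.erase i)) (vec μ a E fun k => w ^ n k) ≠ 0 →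
      XPpr (A.reg (Finset.univ.erase j)) (vec μ a E fun k => w ^ m k) ≠ 0 → i = j) :
    ∃ i : Fin r, IsType μ a E A (fun n : ℕ => w ^ n) atTop i := by
  classical
  -- one type occurs
  obtain ⟨i, hi⟩ : ∃ i : Fin r, XPpr (A.reg (Finset.univ.erase i)) (vec μ a E fun k : ℕ => w ^ k) ≠ 0 := by
    by_contra hcon
    push Not at hcon
    have h1 := mass_one (E := E) hco hs D (b := fun k : ℕ => w ^ k) (fun n => F.pow_mem hw n) hwt
    rw [Finset.sum_eq_zero fun j _ => by rw [hcon j, norm_zero, zero_pow two_ne_zero]] at h1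
    norm_num at h1
  refine ⟨i, fun β hβ => ?_⟩
  obtain ⟨R, hR⟩ := no_twoM (E := E) hco hs D (half_pos hβ)
  refine ⟨R, fun L => ?_⟩
  by_contra hcon
  rw [not_eventually] at hcon
  -- a subsequence with mass on another type
  have h1 : ∃ᶠ n : ℕ in atTop, ∃ j : Fin r, j ≠ i ∧ β / (4 * r) ≤ mass μ a E (one A j R L) (w ^ n) := by
    have h2 := ((sml_tendsto (E := E) (A := A) D.hF2 L).comp hwt).eventually
      (gt_mem_nhds (show (0 : ℝ) < β / 4 by positivity))
    refine (hcon.and_eventually h2).mono ?_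
    rintro n ⟨h3, h4⟩
    have h4' : mass μ a E (sml A L) (w ^ n) < β / 4 := h4
    have h5 := one_sum (μ := μ) (a := a) (E := E) (A := A) R L (w ^ n)
    have h6 := hR _ (F.pow_mem hw n)
    by_contra hc
    push Not at hc
    have hr : (0 : ℝ) < r := by
      have : 0 < r := by omega
      exact_mod_cast this
    have h7 : ∑ j ∈ Finset.univ.erase i, mass μ a E (one A j R L) (w ^ n) ≤ β / 4 := by
      calc ∑ j ∈ Finset.univ.erase i, mass μ a E (one A j R L) (w ^ n)
          ≤ ∑ _j ∈ Finset.univ.erase i, β / (4 * r) :=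
            Finset.sum_le_sum fun j hj => (hc j (Finset.mem_erase.1 hj).1).le
        _ ≤ ∑ _j : Fin r, β / (4 * r) :=
            Finset.sum_le_sum_of_subset_of_nonneg (Finset.erase_subset _ _) fun _ _ _ => by positivity
        _ = β / 4 := by
            rw [Finset.sum_const, Finset.card_univ, Fintype.card_fin, nsmul_eq_mul]
            field_simp
    rw [← Finset.add_sum_erase _ _ (Finset.mem_univ i)] at h5
    push Not at h3
    linarith
  have h2 : ∃ j : Fin r, j ≠ i ∧ ∃ᶠ n : ℕ in atTop, β / (4 * r) ≤ mass μ a E (one A j R L) (w ^ n) := by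
    by_contra hc
    push Not at hc
    refine h1 ?_
    have h3 : ∀ j : Fin r, ∀ᶠ n : ℕ in atTop, ¬ (j ≠ i ∧ β / (4 * r) ≤ mass μ a E (one A j R L) (w ^ n)) := by
      intro j
      by_cases hj : j = i
      · exact Eventually.of_forall fun n hn => hn.1 hj
      · have h4 := hc j hj
        filter_upwards [h4] with n hn hn'
        exact absurd hn'.2 (not_le.2 hn)
    filter_upwards [eventually_all.2 h3] with n hn
    rintro ⟨j, hj⟩
    exact hn j hj
  obtain ⟨j, hj, h3⟩ := h2
  obtain ⟨m, hm, hmm⟩ := extraction_of_frequently_atTop h3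
  have hr : (0 : ℝ) < r := by
    have : 0 < r := by omega
    exact_mod_cast this
  have hb : Tendsto (fun k => w ^ m k) atTop (cocompact G1) := hwt.comp hm.tendsto_atTop
  have h4 := comp_of_mass (μ := μ) (a := a) (E := E) (A := A) (j := j) (b := fun k => w ^ m k) (R := R)
    (β := β / (4 * r) / 2) (by positivity) fun L' => one_up D.hF2 hb (by positivity) (Eventually.of_forall hmm) L'
  exact hj (hsingle j i m (fun k => k) hm.tendsto_atTop tendsto_id h4 hi)

namespace IsType

variable {I : Type} {f : I → G1} {fl : Filter I} {j j' : Fin r}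

/-- The type is unique. -/
theorem unique [NeBot fl] (h : IsType μ a E A f fl j) (h' : IsType μ a E A f fl j') : j = j' := by
  by_contra hne
  obtain ⟨R, hR⟩ := h (1 / 3) (by norm_num)
  obtain ⟨R', hR'⟩ := h' (1 / 3) (by norm_num)
  obtain ⟨n, h1, h2⟩ := ((hR (max R R')).and (hR' (max R R'))).exists
  have h3 : Disjoint (one A j R (max R R')) (one A j' R' (max R R')) := by
    rw [Set.disjoint_left]
    rintro γ ⟨h4, -⟩ ⟨-, h5⟩
    have h6 := h5 j hne
    have h7 : (R' : ℝ) ≤ ((max R R' : ℕ) : ℝ) := by exact_mod_cast le_max_right R R'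
    linarith
  have h4 := mass_disj (μ := μ) (a := a) (E := E) h3 (f n)
  have h5 := mass_le_one (μ := μ) (a := a) (E := E) (one A j R (max R R') ∪ one A j' R' (max R R')) (f n)
  linarith

theorem comp {I' : Type} {fl' : Filter I'} {u : I' → I} (h : IsType μ a E A f fl j) (hu : Tendsto u fl' fl) :
    IsType μ a E A (fun i => f (u i)) fl' j := by
  intro β hβ
  obtain ⟨R, hR⟩ := h β hβ
  exact ⟨R, fun L => hu.eventually (hR L)⟩

/-- Two sided translates by compact sets. -/
theorem two_sided (h3 : Tendsto (fun g : G1 => μ {x | a.a g x ≠ 1}) (𝓝 1) (𝓝 0)) (h : IsType μ a E A f fl j) {K : Set G1}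
    (hK : IsCompact K) {k k' : I → G1} (hk : ∀ᶠ i in fl, k i ∈ K) (hk' : ∀ᶠ i in fl, k' i ∈ K) :
    IsType μ a E A (fun i => k i * f i * k' i) fl j := by
  intro β hβ
  obtain ⟨R, hR⟩ := one_K (A := A) (E := E) h3 h hK hβ
  refine ⟨R, fun L => ?_⟩
  filter_upwards [hR L, hk, hk'] with i h1 h2 h3
  exact h1 _ h2 _ h3

theorem congr' {f' : I → G1} (h : IsType μ a E A f fl j) (hf : f =ᶠ[fl] f') : IsType μ a E A f' fl j := by
  intro β hβ
  obtain ⟨R, hR⟩ := h β hβ
  refine ⟨R, fun L => ?_⟩
  filter_upwards [hR L, hf] with i h1 h2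
  rw [← h2]
  exact h1

end IsType

/-- From the powers of `w 1` to `w t`, `t → ∞`. -/
theorem type_real (h3 : Tendsto (fun g : G1 => μ {x | a.a g x ≠ 1}) (𝓝 1) (𝓝 0)) {w : ℝ → G1} (hw : Continuous w)
    (hadd : ∀ t t', w (t + t') = w t * w t') {j : Fin r} (h : IsType μ a E A (fun n : ℕ => w 1 ^ n) atTop j) :
    IsType μ a E A w atTop j := by
  have h0 : w 0 = 1 := by
    have h1 := hadd 0 0
    rw [add_zero] at h1
    exact mul_eq_left.1 h1.symm
  have hn : ∀ n : ℕ, w 1 ^ n = w n := by
    intro n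
    induction n with
    | zero => rw [pow_zero, Nat.cast_zero, h0]
    | succ n ih => rw [pow_succ, ih, Nat.cast_succ, hadd]
  have h1 : IsType μ a E A (fun t : ℝ => w 1 ^ ⌊t⌋₊) atTop j := h.comp (tendsto_nat_floor_atTop (α := ℝ))
  have h2 := h1.two_sided (K := w '' Set.Icc 0 1) h3 (isCompact_Icc.image hw) (k := fun _ => 1)
    (k' := fun t => w (t - ⌊t⌋₊)) (Eventually.of_forall fun _ => ⟨0, by simp, h0⟩) (by
      filter_upwards [eventually_ge_atTop (0 : ℝ)] with t ht
      refine ⟨_, ⟨?_, ?_⟩, rfl⟩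
      · exact sub_nonneg.2 (Nat.floor_le ht)
      · linarith [Nat.lt_floor_add_one t])
  refine h2.congr' (Eventually.of_forall fun t => ?_)
  change 1 * w 1 ^ ⌊t⌋₊ * w (t - ⌊t⌋₊) = w t
  rw [one_mul, hn, ← hadd]
  congr 1
  ring

end Pool.Agent.Helper20.FQ
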