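import Pool.Agent.Helper20.FQ.Lf
import Pool.Agent.Helper10.FQ.Glob

/-!
# Project FQ (MP_0f6f3f_an), layer LF: bridge to the global form of helper10

`opH ρ`: the representation by operators of a matrix representation. `LFR_of_all`, `LFL_of_all`: the forms `LFR`, `LFL` of `Lf.lean` from `AbV`, `AbL`.
-/

set_option autoImplicit false
set_option linter.unusedSectionVars false

open MeasureTheory Filter Topology Matrix

namespace Pool.Agent.Helper20.FQ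

open Pool.Agent.Helper84.NI Pool.Agent.Helper84.GVN Pool.Agent.Helper90.RK
open Pool.Agent.Helper84.GN hiding toReg
open Pool.Agent.Helper96.RK Pool.Agent.Helper66.FR Pool.Agent.Helper84.FR Pool.Agent.Helper96.FR Pool.Agent.Helper55.FR
open Pool.Agent.Helper43.TA Pool.Agent.Helper43.FQ Pool.Agent.Helper9.FQ Pool.Agent.Helper35.NI Pool.Agent.Helper20.TB
open Pool.Agent.Helper10.FQ

/-- The operators of a matrix representation. -/
noncomputable def opH {G : Type} [Group G] {m : ℕ} (ρ : G →* Matrix (Fin m) (Fin m) ℝ) :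
    G →* (EuclideanSpace ℝ (Fin m) →L[ℝ] EuclideanSpace ℝ (Fin m)) :=
  ((Matrix.toEuclideanCLM (𝕜 := ℝ) (n := Fin m) : Matrix (Fin m) (Fin m) ℝ →* _)).comp ρ

theorem opH_apply {G : Type} [Group G] {m : ℕ} (ρ : G →* Matrix (Fin m) (Fin m) ℝ) (γ : G) : opH ρ γ = op (ρ γ) := rfl

theorem op_transpose {m : ℕ} (A : Matrix (Fin m) (Fin m) ℝ) : op Aᵀ = ContinuousLinearMap.adjoint (op A) := by
  rw [← ContinuousLinearMap.star_eq_adjoint]
  unfold op
  rw [← map_star, Matrix.star_eq_conjTranspose, conjTranspose_eq_transpose_of_trivial]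

variable {G1 X G Λ : Type} [Group G1] [MeasurableSpace X] {μ : Measure X} [MulAction G1 X]
  [MeasurableConstSMul G1 X] [SMulInvariantMeasure G1 X μ] [IsProbabilityMeasure μ]
  [Group G] [Group Λ] [Countable Λ] {a : Cocy G1 X Λ} {E : Emb Λ G}

theorem LFR_of_all {m : ℕ} {ρ : G →* Matrix (Fin m) (Fin m) ℝ}
    (h : ∀ ε : ℝ, 0 < ε → ∃ δ : ℝ, 0 < δ ∧ ∀ (g : G1) (v : EuclideanSpace ℝ (Fin m)), ‖v‖ = 1 →
      mass μ a E (AbV (opH ρ) v δ) g ≤ ε) {I : Type} (f : I → G1) (fl : Filter I) : LFR μ a E (fun γ => ρ γ) f fl := by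
  intro ε hε
  obtain ⟨δ, hδ, h1⟩ := h ε hε
  exact ⟨δ, hδ, Eventually.of_forall fun i v hv => h1 (f i) v hv⟩

theorem LFL_of_all {m : ℕ} {ρ : G →* Matrix (Fin m) (Fin m) ℝ}
    (h : ∀ ε : ℝ, 0 < ε → ∃ δ : ℝ, 0 < δ ∧ ∀ (g : G1) (v : EuclideanSpace ℝ (Fin m)), ‖v‖ = 1 →
      mass μ a E (AbL (opH ρ) v δ) g ≤ ε) {I : Type} (f : I → G1) (fl : Filter I) : LFL μ a E (fun γ => ρ γ) f fl := by
  intro ε hε
  obtain ⟨δ, hδ, h1⟩ := h ε hε
  refine ⟨δ, hδ, Eventually.of_forall fun i v hv => ?_⟩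
  have h2 := h1 (f i) v hv
  have h3 : {γ | ‖op (ρ γ)ᵀ v‖ ≤ δ * ‖op (ρ γ)‖} = AbL (opH ρ) v δ := by
    ext γ
    unfold AbL
    rw [Set.mem_ofPred_eq, Set.mem_ofPred_eq, opH_apply, op_transpose]
  rw [h3]
  exact h2

/-- The irreducibility in the form of helper10 from matrices. -/
theorem hirr_of {G : Type} [Group G] {m : ℕ} (ρ : G →* Matrix (Fin m) (Fin m) ℝ)
    (h : ∀ W : Submodule ℝ (Fin m → ℝ), (Set.range fun k : G => W.map (ρ k).mulVecLin).Finite → W = ⊥ ∨ W = ⊤) :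
    ∀ F : Submodule ℝ (EuclideanSpace ℝ (Fin m)), F ≠ ⊥ → F ≠ ⊤ → (Set.range fun k => trS (opH ρ) k F).Infinite := by
  intro F h1 h2 hfin
  let φ : EuclideanSpace ℝ (Fin m) ≃ₗ[ℝ] (Fin m → ℝ) := WithLp.linearEquiv 2 ℝ (Fin m → ℝ)
  have h3 : ∀ k : G, (F.map (φ : EuclideanSpace ℝ (Fin m) →ₗ[ℝ] (Fin m → ℝ))).map (ρ k).mulVecLin =
      (trS (opH ρ) k F).map (φ : EuclideanSpace ℝ (Fin m) →ₗ[ℝ] (Fin m → ℝ)) := by
    intro k
    unfold trS
    rw [← Submodule.map_comp, ← Submodule.map_comp]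
    congr 1
  have h4 := h (F.map (φ : EuclideanSpace ℝ (Fin m) →ₗ[ℝ] (Fin m → ℝ))) (by
    have h5 := hfin.image fun F : Submodule ℝ (EuclideanSpace ℝ (Fin m)) =>
      F.map (φ : EuclideanSpace ℝ (Fin m) →ₗ[ℝ] (Fin m → ℝ))
    rw [← Set.range_comp] at h5
    refine h5.subset ?_
    rintro _ ⟨k, rfl⟩
    exact ⟨k, (h3 k).symm⟩)
  rcases h4 with h4 | h4
  · refine h1 (Submodule.map_injective_of_injective (f := (φ : EuclideanSpace ℝ (Fin m) →ₗ[ℝ] (Fin m → ℝ))) φ.injective ?_)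
    rw [h4, Submodule.map_bot]
  · refine h2 ?_
    rw [eq_top_iff]
    intro v _
    have h5 : φ v ∈ F.map (φ : EuclideanSpace ℝ (Fin m) →ₗ[ℝ] (Fin m → ℝ)) := by
      rw [h4]
      trivial
    obtain ⟨w, hw, h6⟩ := h5
    have h7 : w = v := φ.injective h6
    rwa [← h7]

end Pool.Agent.Helper20.FQ
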