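import Pool.Agent.Helper7.FQ.CfDD
import Pool.Agent.Helper10.FQ.CfA
import Pool.Agent.Helper20.FQ.Lf2
import Pool.Agent.Helper3.FQ.Dw
import Pool.Agent.Helper3.FQ.Large
import Pool.Agent.Helper72.FQ.Coc
import Pool.Agent.Helper64.NIG.Geo
import Pool.Agent.Helper50.FQ.Nod

/-!
# Project FQ (MP_0f6f3f_an): every node has a type

`type_node`: the type of the node `u`. `Cf.st`: the matching `s` of the nodes for a configuration `Cf`.
-/

set_option autoImplicit false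
set_option linter.unusedSectionVars false

open Filter Topology MeasureTheory Matrix

namespace Pool.Agent.Helper20.FQ

open Pool.Agent.Helper84.NI Pool.Agent.Helper84.GVN Pool.Agent.Helper90.RK
open Pool.Agent.Helper84.GN hiding toReg
open Pool.Agent.Helper96.RK Pool.Agent.Helper66.FR Pool.Agent.Helper84.FR Pool.Agent.Helper96.FR Pool.Agent.Helper55.FR
open Pool.Agent.Helper43.TA Pool.Agent.Helper9.FQ Pool.Agent.Helper43.TZ Pool.Agent.Helper96.TO Pool.Agent.Helper96.SA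
open Pool.Agent.Helper43.FQ (Gp DatN exists_datN)
open Pool.Agent.Helper35.TZ (autC isAdj_autC autC_sub lcs_autC)
open Pool.Agent.Helper84.GDL (GD SI)
open Pool.Agent.Helper20.TB (op hs hs_nonneg hs_le_card)
open Pool.Agent.Helper35.NI (ND)
open Pool.Agent.Helper7.NI (ndOf)
open Pool.Agent.Helper84.GN.S3.X (vgR)
open Pool.Agent.Helper78.BM (Ctr ErgU ergU_of contVec_vg adR)
open Pool.Agent.Helper52.FQ (DD)
open Pool.Agent.Helper55.FQ (Gr Cf wn Mt gp gG)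
open Pool.Agent.Helper10.FQ (MauU mau_ea rhG VE AbV AbL)

section Op

theorem ab_of {m : ℕ} {A : Matrix (Fin (m + 1)) (Fin (m + 1)) ℝ} {δ x : ℝ} (hδ : 0 < δ)
    (h : x < δ / √((m : ℝ) + 1) * √(hs A)) : x ≤ δ * ‖op A‖ := by
  have h1 : √(hs A) ≤ √((m : ℝ) + 1) * ‖op A‖ := by
    rw [← Real.sqrt_sq (norm_nonneg (op A)), ← Real.sqrt_mul (by positivity)]
    refine Real.sqrt_le_sqrt ?_
    have h2 := hs_le_card A
    rw [Fintype.card_fin] at h2
    push_cast at h2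
    exact h2
  have h2 : 0 < √((m : ℝ) + 1) := by positivity
  calc x ≤ δ / √((m : ℝ) + 1) * √(hs A) := h.le
    _ ≤ δ / √((m : ℝ) + 1) * (√((m : ℝ) + 1) * ‖op A‖) := mul_le_mul_of_nonneg_left h1 (by positivity)
    _ = δ * ‖op A‖ := by field_simp

end Op

section Src

variable {L : Type} [LieRing L] [LieAlgebra ℝ L] {N : ℕ} {r : ℕ} {θ : L ≃ₗ⁅ℝ⁆ L} {b : Module.Basis (Fin N) ℝ L} {A : Submodule ℝ L}
  {τ : Module.Dual ℝ A ≃ₗ[ℝ] A} {al : Fin r → Module.Dual ℝ A} {W : Fin r → A} {D : GD (autC b) (Fin r)}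

theorem wn_coe20 (G : Gr θ b A τ al W D) (u : Fin r) (n : ℕ) :
    ((wn D u n : autC b) : GL (Fin N) ℝ) = ex ((n : ℝ) • TT_to b (W u : L)) := by
  unfold wn
  rw [G.ea, Pool.Agent.Helper77.FQ.eaG_coe]
  congr 1
  have h1 : Pool.Agent.Helper77.FQ.eaA W (Pi.single u (n : ℝ)) = (n : ℝ) • W u := by
    unfold Pool.Agent.Helper77.FQ.eaA
    rw [Finset.sum_eq_single u]
    · rw [Pi.single_eq_same]
    · intro i _ hi
      rw [Pi.single_eq_of_ne hi, zero_smul]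
    · intro h
      exact absurd (Finset.mem_univ u) h
  rw [h1, Submodule.coe_smul, map_smul]

/-- The sequence leaves the compact sets. -/
theorem wn_cocompact (D : GD (autC b) (Fin r)) (u : Fin r) : Tendsto (wn D u) atTop (cocompact (autC b)) := by
  have := lcs_autC b
  rw [tendsto_iff_forall_eventually_mem]
  intro S hS
  obtain ⟨K, hK, hKS⟩ := mem_cocompact.1 hS
  obtain ⟨R, hR0, hR⟩ := D.mu_shift (hK.union (isCompact_singleton (x := (1 : autC b))))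
  filter_upwards [eventually_gt_atTop ⌈R⌉₊] with n hn
  refine hKS fun hmem => ?_
  have h1 := hR (wn D u n) (Or.inl hmem) 1 (Or.inr rfl) 1 u
  have h0 : D.mu (1 : autC b) = 0 := D.mu_K D.K.one_mem
  rw [mul_one, mul_one, h0] at h1
  have h2 : D.mu (wn D u n) = Pi.single u (n : ℝ) := D.mu_ea fun j => by
    by_cases hj : j = u
    · rw [hj, Pi.single_eq_same]
      exact Nat.cast_nonneg _
    · rw [Pi.single_eq_of_ne hj]
  rw [h2, Pi.single_eq_same, Pi.zero_apply, sub_zero, abs_of_nonneg (Nat.cast_nonneg _)] at h1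
  have h3 : R ≤ (⌈R⌉₊ : ℝ) := Nat.le_ceil _
  have h4 : ((⌈R⌉₊ : ℕ) : ℝ) < n := by exact_mod_cast hn
  linarith

/-- The powers. -/
theorem wn_pow (D : GD (autC b) (Fin r)) (u : Fin r) (n : ℕ) : (D.ea (Pi.single u 1)) ^ n = wn D u n := by
  unfold wn
  induction n with
  | zero => rw [pow_zero, Nat.cast_zero, Pi.single_zero, D.ea_zero]
  | succ n ih => rw [pow_succ, ih, ← D.ea_add, ← Pi.single_add, Nat.cast_succ]

end Src

section Main

variable {L L' : Type} [LieRing L] [LieAlgebra ℝ L] [LieRing L'] [LieAlgebra ℝ L'] {N N' : ℕ} {r : ℕ}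
  {θ : L ≃ₗ⁅ℝ⁆ L} {θ' : L' ≃ₗ⁅ℝ⁆ L'} {b : Module.Basis (Fin N) ℝ L} {b' : Module.Basis (Fin N') ℝ L'}
  {A : Submodule ℝ L} {A' : Submodule ℝ L'} {τ : Module.Dual ℝ A ≃ₗ[ℝ] A} {τ' : Module.Dual ℝ A' ≃ₗ[ℝ] A'}
  {al : Fin r → Module.Dual ℝ A} {al' : Fin r → Module.Dual ℝ A'} {W : Fin r → A} {W' : Fin r → A'}
  {D : GD (autC b) (Fin r)} {D' : GD (autC b') (Fin r)} [MeasurableSpace (autC b)] [BorelSpace (autC b)]
  {Γ : Subgroup (autC b)} {Λ : Subgroup (autC b')} [Countable Γ] [Countable Λ]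
  {X : Type} [MeasurableSpace X] [MulAction (autC b) X] [MeasurableConstSMul (autC b) X] {μ : Measure X}
  [SMulInvariantMeasure (autC b) X μ] [IsProbabilityMeasure μ] {a : Cocy (autC b) X Γ} {E : Emb Γ Λ}

/-- The data of the source at a node. -/
theorem datN_node (C : Cf θ θ' A A' τ τ' al al' W W' D D' μ a E) (u : Fin r) :
    ∃ s, s + 1 = r ∧ Nonempty (DatN μ a (opg (autC b) (TT_to b (W u : L))) s) := by
  obtain ⟨i1, i2, i3⟩ := lcs_autC b
  have h2 := C.h2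
  obtain ⟨n, rfl⟩ : ∃ n, r = n + 1 := ⟨r - 1, by omega⟩
  refine ⟨n, rfl, exists_datN C.cyc.h3 C.cyc.hF2 (fun F' hF' => ⟨?_, C.cyc.hF4 F' hF'⟩)
    (Pool.Agent.Helper50.FQ.twoN_node C.G.s.h (isAdj_autC b) C.G.s.hA (fun i => C.G.s.hS.root i) C.G.hW u)⟩
  exact countable_of_discrete F'

/-- Ergodicity along the subsequences of the powers. -/
theorem erg_sub (C : Cf θ θ' A A' τ τ' al al' W W' D D' μ a E) (u : Fin r) {n : ℕ → ℕ} (hn : Tendsto n atTop atTop) :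
    ErgU μ a E (Ctr fun k => D.ea (Pi.single u 1) ^ n k) := by
  have := C.simple
  have h1 : MauU (Ctr fun k => D.ea (Pi.single u 1) ^ n k) := by
    have h2 : (fun k => D.ea (Pi.single u 1) ^ n k) = fun k => D.ea (Pi.single u (n k : ℝ)) := funext fun k => wn_pow D u (n k)
    rw [h2]
    refine mau_ea C.G (c := fun k => Pi.single u (n k : ℝ)) (j := u) ?_
    have h : Tendsto (fun k : ℕ => ((n k : ℕ) : ℝ)) (hyperfilter ℕ : Filter ℕ) atTop :=
      (tendsto_natCast_atTop_atTop.comp hn).mono_left Nat.hyperfilter_le_atTop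
    simpa using h
  exact ergU_of C.cyc.hinv fun φ hφ g => h1 _ (vgR μ a (adR E)) φ (contVec_vg C.cyc.h3 C.cyc.hK (adR E) φ) hφ g

/-- The right data are not degenerate. -/
theorem nd_right (C : Cf θ θ' A A' τ τ' al al' W W' D D' μ a E) [T2Space (autC b')] [DiscreteTopology Λ] {ε : ℝ} (hε : 0 < ε) :
    ∃ κ : ℝ, 0 < κ ∧ ∀ (g : autC b) (l : Fin r) (e : EuclideanSpace ℝ (Fin ((ndOf D' Λ C.G'.low).n l))), ‖e‖ = 1 →
      mass μ a E {γ | ‖op ((ndOf D' Λ C.G'.low).r l γ) e‖ < κ * √(hs ((ndOf D' Λ C.G'.low).r l γ))} g ≤ ε := by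
  have h1 : ∀ l, ∃ κ : ℝ, 0 < κ ∧ ∀ (g : autC b) (e : EuclideanSpace ℝ (Fin ((ndOf D' Λ C.G'.low).n l))), ‖e‖ = 1 →
      mass μ a E {γ | ‖op ((ndOf D' Λ C.G'.low).r l γ) e‖ < κ * √(hs ((ndOf D' Λ C.G'.low).r l γ))} g ≤ ε := by
    intro l
    obtain ⟨δ, hδ, h2⟩ := C.lfg l hε
    refine ⟨δ / √((D'.d l : ℝ) + 1), by positivity, fun g e he => (mass_mono ?_ g).trans (h2 g e he)⟩
    intro γ hγ
    exact ab_of hδ hγ
  choose κ hκ h using h1
  by_cases hr : (Finset.univ : Finset (Fin r)).Nonempty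
  · refine ⟨Finset.univ.inf' hr κ, (Finset.lt_inf'_iff hr).2 fun l _ => hκ l, fun g l e he => (mass_mono ?_ g).trans (h l g e he)⟩
    intro γ hγ
    rw [Set.mem_ofPred_eq] at hγ ⊢
    refine lt_of_lt_of_le hγ ?_
    exact mul_le_mul_of_nonneg_right (Finset.inf'_le κ (Finset.mem_univ l)) (Real.sqrt_nonneg _)
  · exact ⟨1, one_pos, fun g l => absurd ⟨l, Finset.mem_univ l⟩ hr⟩

/-- The left data are not degenerate. -/
theorem nd_left (C : Cf θ θ' A A' τ τ' al al' W W' D D' μ a E) [T2Space (autC b')] [DiscreteTopology Λ] {ε : ℝ} (hε : 0 < ε) :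
    ∃ κ : ℝ, 0 < κ ∧ ∀ (g : autC b) (l : Fin r) (e : EuclideanSpace ℝ (Fin ((ndOf D' Λ C.G'.low).n l))), ‖e‖ = 1 →
      mass μ a E {γ | ‖op ((ndOf D' Λ C.G'.low).r l γ)ᵀ e‖ < κ * √(hs ((ndOf D' Λ C.G'.low).r l γ))} g ≤ ε := by
  have h1 : ∀ l, ∃ κ : ℝ, 0 < κ ∧ ∀ (g : autC b) (e : EuclideanSpace ℝ (Fin ((ndOf D' Λ C.G'.low).n l))), ‖e‖ = 1 →
      mass μ a E {γ | ‖op ((ndOf D' Λ C.G'.low).r l γ)ᵀ e‖ < κ * √(hs ((ndOf D' Λ C.G'.low).r l γ))} g ≤ ε := by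
    intro l
    obtain ⟨δ, hδ, h2⟩ := C.lfgL l hε
    refine ⟨δ / √((D'.d l : ℝ) + 1), by positivity, fun g e he => (mass_mono ?_ g).trans (h2 g e he)⟩
    intro γ hγ
    have h3 := ab_of (A := (ndOf D' Λ C.G'.low).r l γ) hδ hγ
    rw [op_transpose] at h3
    exact h3
  choose κ hκ h using h1
  by_cases hr : (Finset.univ : Finset (Fin r)).Nonempty
  · refine ⟨Finset.univ.inf' hr κ, (Finset.lt_inf'_iff hr).2 fun l _ => hκ l, fun g l e he => (mass_mono ?_ g).trans (h l g e he)⟩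
    intro γ hγ
    rw [Set.mem_ofPred_eq] at hγ ⊢
    refine lt_of_lt_of_le hγ ?_
    exact mul_le_mul_of_nonneg_right (Finset.inf'_le κ (Finset.mem_univ l)) (Real.sqrt_nonneg _)
  · exact ⟨1, one_pos, fun g l => absurd ⟨l, Finset.mem_univ l⟩ hr⟩

/-- **The type of the node `u`.** -/
theorem type_node (C : Cf θ θ' A A' τ τ' al al' W W' D D' μ a E) {hm : Measure (autC b)} {σ : X → autC b} (u : Fin r)
    (hDD : DD μ a E (D.ea (Pi.single u 1)) Γ.subtype hm σ) :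
    ∃ i : Fin r, IsType μ a E (gp D' Λ C.hf') (wn D u) atTop i := by
  obtain ⟨i1, i2, i3⟩ := lcs_autC b
  obtain ⟨j1, j2, j3⟩ := lcs_autC b'
  have hdis : DiscreteTopology Λ := C.lat'.1
  obtain ⟨s, hs, ⟨Dt⟩⟩ := datN_node C u
  have hco : ∀ J, HasCoc ((gp D' Λ C.hf').reg J) := fun J => C.G'.hasCoc Λ hdis C.hf' J
  have hw : D.ea (Pi.single u 1) ∈ opg (autC b) (TT_to b (W u : L)) := by
    refine Pool.Agent.Helper50.FQ.mem_opg_self ?_
    have h1 := wn_coe20 C.G u 1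
    rw [Nat.cast_one, one_smul] at h1
    unfold wn at h1
    rw [Nat.cast_one] at h1
    exact h1
  have hwt : Tendsto (fun n : ℕ => D.ea (Pi.single u 1) ^ n) atTop (cocompact (autC b)) :=
    (wn_cocompact D u).congr fun n => (wn_pow D u n).symm
  obtain ⟨i, hi⟩ := exists_type (E := E) hco hs Dt hw hwt fun i j n m hn hm hi hj =>
    Pool.Agent.Helper3.FQ.single (N := ndOf D' Λ C.G'.low) (A := gp D' Λ C.hf') (fun _ _ => rfl)
      (fun L => Pool.Agent.Helper3.FQ.exists_large D' C.lat' L) C.cyc.h3 C.cyc.hF2 C.cyc.full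
      (Pool.Agent.Helper3.FQ.dwin_of hDD C.cyc.full)
      (fun l ε hε => Pool.Agent.Helper3.FQ.th_of hDD (fun β hβ => no_twoM (E := E) hco hs Dt hβ) hw l ε hε) hwt
      (fun β hβ => by
        obtain ⟨R, hR⟩ := no_twoM (E := E) hco hs Dt hβ
        exact ⟨R, fun n => hR _ (Subgroup.pow_mem _ hw n)⟩)
      (fun n hn => erg_sub C u hn)
      (fun ε hε => by
        obtain ⟨κ, hκ, h⟩ := nd_right C hε
        exact ⟨κ, hκ, fun n l e he => h _ l e he⟩)
      (fun ε hε => by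
        obtain ⟨κ, hκ, h⟩ := nd_left C hε
        exact ⟨κ, hκ, fun n l e he => h _ l e he⟩)
      (Pool.Agent.Helper64.NIG.geo D' Λ C.G'.low C.G'.dn i) hn hm hi hj
  exact ⟨i, hi.congr' (Eventually.of_forall fun n => wn_pow D u n)⟩

/-- **Every node has a type.** -/
theorem st_of (C : Cf θ θ' A A' τ τ' al al' W W' D D' μ a E)
    (hDD : ∃ (hm : Measure (autC b)) (σ : X → autC b), ∀ u, DD μ a E (D.ea (Pi.single u 1)) Γ.subtype hm σ) :
    ∃ s : Fin r → Fin r, Mt μ a E D D' C.hf' s := by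
  obtain ⟨hm, σ, h⟩ := hDD
  choose s hs using fun u => type_node C u (h u)
  exact ⟨s, hs⟩

/-- **LAYER ST: every node has a type.** -/
theorem _root_.Pool.Agent.Helper55.FQ.Cf.st (C : Cf θ θ' A A' τ τ' al al' W W' D D' μ a E) : ∃ s : Fin r → Fin r, Mt μ a E D D' C.hf' s := by
  obtain ⟨hm, σ, h, -⟩ := C.dat
  exact st_of C ⟨hm, σ, h⟩

end Main

end Pool.Agent.Helper20.FQ
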